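import Pool.Agent.H6.N4D.TB

/-!
# Row E1P: the clipped difference is almost constant along the edges of the prime numbers
-/

set_option autoImplicit false

open Finset Pool.Agent.H6.N4D

namespace Pool.Agent.H73.N4D

/-- the least of the two distances -/
noncomputable def mm (A B : ℝ) : ℝ := min (nd (B - A)) (nd (B + A))

lemma mm_nonneg (A B : ℝ) : 0 ≤ mm A B := le_min (nd_nonneg _) (nd_nonneg _)

lemma mm_le {A B s : ℝ} (hs : s = 1 ∨ s = -1) : mm A B ≤ nd (B - s * A) := by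
  rcases hs with rfl | rfl
  · rw [one_mul]; exact min_le_left _ _
  · rw [neg_one_mul, sub_neg_eq_add]; exact min_le_right _ _

lemma mm_ex (A B : ℝ) : ∃ s : ℝ, (s = 1 ∨ s = -1) ∧ mm A B = nd (B - s * A) := by
  unfold mm
  rcases le_total (nd (B - A)) (nd (B + A)) with h | h
  · exact ⟨1, Or.inl rfl, by rw [min_eq_left h, one_mul]⟩
  · exact ⟨-1, Or.inr rfl, by rw [min_eq_right h, neg_one_mul, sub_neg_eq_add]⟩

lemma pm_mul {s t : ℝ} (hs : s = 1 ∨ s = -1) (ht : t = 1 ∨ t = -1) :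
    s * t = 1 ∨ s * t = -1 := by
  rcases hs with rfl | rfl <;> rcases ht with rfl | rfl <;> norm_num

lemma pm_sq {s : ℝ} (hs : s = 1 ∨ s = -1) : s * s = 1 := by
  rcases hs with rfl | rfl <;> norm_num

lemma pm_key {A B A' B' p e τ τ' s : ℝ} (hτ' : τ' = 1 ∨ τ' = -1)
    (hs : s = 1 ∨ s = -1) (h1 : nd (A' - τ * (p * A)) ≤ e) (h2 : nd (B' - τ' * (p * B)) ≤ e) :
    nd ((B' - s * A') - τ' * (p * (B - s * τ * τ' * A))) ≤ 2 * e := by
  have e1 : (B' - s * A') - τ' * (p * (B - s * τ * τ' * A)) =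
      (B' - τ' * (p * B)) - s * (A' - τ * (p * A)) := by
    have := pm_sq hτ'
    linear_combination (p * s * τ * A) * this
  rw [e1]
  have := nd_sub_le (B' - τ' * (p * B)) (s * (A' - τ * (p * A)))
  rw [nd_pm hs] at this
  linarith

lemma pm_up {A B A' B' p e τ τ' s : ℝ} (hτ' : τ' = 1 ∨ τ' = -1)
    (hs : s = 1 ∨ s = -1) (h1 : nd (A' - τ * (p * A)) ≤ e) (h2 : nd (B' - τ' * (p * B)) ≤ e) :
    nd (B' - s * A') ≤ nd (p * (B - s * τ * τ' * A)) + 2 * e := by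
  have h := pm_key hτ' hs h1 h2
  have h3 := nd_add_le (τ' * (p * (B - s * τ * τ' * A)))
    ((B' - s * A') - τ' * (p * (B - s * τ * τ' * A)))
  rw [nd_pm hτ', show τ' * (p * (B - s * τ * τ' * A)) +
    ((B' - s * A') - τ' * (p * (B - s * τ * τ' * A))) = B' - s * A' by ring] at h3
  linarith

lemma pm_down {A B A' B' p e τ τ' s : ℝ} (hτ' : τ' = 1 ∨ τ' = -1)
    (hs : s = 1 ∨ s = -1) (h1 : nd (A' - τ * (p * A)) ≤ e) (h2 : nd (B' - τ' * (p * B)) ≤ e) :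
    nd (p * (B - s * τ * τ' * A)) ≤ nd (B' - s * A') + 2 * e := by
  have h := pm_key hτ' hs h1 h2
  have h3 := nd_sub_le (B' - s * A') ((B' - s * A') - τ' * (p * (B - s * τ * τ' * A)))
  rw [show B' - s * A' - ((B' - s * A') - τ' * (p * (B - s * τ * τ' * A))) =
    τ' * (p * (B - s * τ * τ' * A)) by ring, nd_pm hτ'] at h3
  linarith

lemma mm_up {A B A' B' e τ τ' : ℝ} {p : ℕ} (hτ : τ = 1 ∨ τ = -1) (hτ' : τ' = 1 ∨ τ' = -1)
    (h1 : nd (A' - τ * (p * A)) ≤ e) (h2 : nd (B' - τ' * (p * B)) ≤ e) :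
    mm A' B' ≤ p * mm A B + 2 * e := by
  obtain ⟨s, hs, hm⟩ := mm_ex A B
  have hs' : s * τ * τ' = 1 ∨ s * τ * τ' = -1 := pm_mul (pm_mul hs hτ) hτ'
  have h := pm_up hτ' hs' h1 h2
  have e1 : s * τ * τ' * τ * τ' = s := by
    have a := pm_sq hτ
    have b := pm_sq hτ'
    linear_combination s * (τ * τ) * b + s * a
  rw [e1] at h
  have h3 := nd_nat_mul_le p (B - s * A)
  rw [hm]
  linarith [mm_le (A := A') (B := B') hs']

lemma mm_down {A B A' B' e τ τ' : ℝ} {p : ℕ} (hτ : τ = 1 ∨ τ = -1) (hτ' : τ' = 1 ∨ τ' = -1)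
    (h1 : nd (A' - τ * (p * A)) ≤ e) (h2 : nd (B' - τ' * (p * B)) ≤ e) :
    ∃ s : ℝ, (s = 1 ∨ s = -1) ∧ nd (p * (B - s * A)) ≤ mm A' B' + 2 * e := by
  obtain ⟨s, hs, hm⟩ := mm_ex A' B'
  refine ⟨s * τ * τ', pm_mul (pm_mul hs hτ) hτ', ?_⟩
  have h := pm_down hτ' hs h1 h2
  rw [hm]
  exact h

lemma exp_le_h {r h : ℝ} (h0 : 0 ≤ h) (h1 : h ≤ 1) (hr : |r| ≤ h / 2) : Real.exp r ≤ 1 + h := by
  have a := Real.add_one_le_exp (-r)
  have b : Real.exp r * Real.exp (-r) = 1 := by rw [← Real.exp_add]; simp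
  have c := Real.exp_pos r
  rw [abs_le] at hr
  have d : Real.exp r * (1 - h / 2) ≤ 1 := by
    rw [← b]
    exact mul_le_mul_of_nonneg_left (by linarith) c.le
  have f : 1 ≤ (1 + h) * (1 - h / 2) := by nlinarith
  have g : 0 < 1 - h / 2 := by linarith
  by_contra hc
  push Not at hc
  nlinarith

lemma y1_eq (S : Par) (ε₁ : ℝ) (θ : ℤ → ℝ) (k : ℕ) (t : ℤ) :
    y1 S ε₁ θ k t = S.rho * S.x t / ε₁ * mm (θ t) (θ (t + 2 ^ k)) := rfl

lemma one_edge {S : Par} {ε₀ ε₁ : ℝ} {θ φ : ℤ → ℝ} {p k : ℕ} {t : ℤ} (hh : 0 < S.h)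
    (hh1 : S.h ≤ 1) (hr : 0 < S.rho) (hp : 1 ≤ p) (h1 : 0 < ε₁) (h0 : 0 ≤ ε₀)
    (hl : |S.h * S.l p - Real.log p| ≤ S.h / 2)
    (ha : EdR S ε₀ θ φ p t) (hb : EdR S ε₀ θ φ p (t + 2 ^ k)) :
    y1 S ε₁ θ k (t - S.l p) ≤ (1 + S.h) * (y1 S ε₁ θ k t + 2 * (ε₀ / ε₁)) ∧
    ∃ s : ℝ, (s = 1 ∨ s = -1) ∧ S.rho * S.x t / ε₁ * nd (p * (θ (t + 2 ^ k) - s * θ t)) ≤
      p * ((1 + S.h) * y1 S ε₁ θ k (t - S.l p) + 2 * (ε₀ / ε₁)) := by
  obtain ⟨τ, hτ, ha1, -⟩ := ha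
  obtain ⟨τ', hτ', hb1, -⟩ := hb
  have hx : 0 < S.x t := Par.x_pos t
  have hp0 : (0 : ℝ) < p := by exact_mod_cast hp
  have hxv : S.x t ≤ S.x (t + 2 ^ k) := Par.x_mono hh (by
    have : (0 : ℤ) < 2 ^ k := by positivity
    omega)
  have hb2 : nd (θ (t - S.l p + 2 ^ k) - τ' * (p * θ (t + 2 ^ k))) ≤
      p * ε₀ / (S.rho * S.x t) := by
    have e : t + 2 ^ k - S.l p = t - S.l p + 2 ^ k := by ring
    rw [e] at hb1
    refine hb1.trans ?_
    apply div_le_div_of_nonneg_left (by positivity) (by positivity)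
    exact mul_le_mul_of_nonneg_left hxv hr.le
  obtain ⟨r, hrr⟩ : ∃ r, r = Real.log p - S.h * S.l p := ⟨_, rfl⟩
  have hr1 : |r| ≤ S.h / 2 := by
    rw [hrr, abs_sub_comm]; exact hl
  have hx' : S.x (t - S.l p) = S.x t / p * Real.exp r := by
    rw [Par.x_sub, show -(S.h * (S.l p : ℝ)) = r - Real.log p by rw [hrr]; ring,
      Real.exp_sub, Real.exp_log hp0]
    ring
  have hE := Real.exp_pos r
  have hE1 : Real.exp r ≤ 1 + S.h := exp_le_h hh.le hh1 hr1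
  have hE2 : Real.exp (-r) ≤ 1 + S.h := exp_le_h hh.le hh1 (by rwa [abs_neg])
  have hy' : y1 S ε₁ θ k (t - S.l p) = S.rho * S.x t / ε₁ / p * Real.exp r *
      mm (θ (t - S.l p)) (θ (t - S.l p + 2 ^ k)) := by
    rw [y1_eq, hx']
    ring
  have hm0 := mm_nonneg (θ (t - S.l p)) (θ (t - S.l p + 2 ^ k))
  have hZ : 0 < S.rho * S.x t / ε₁ := by positivity
  have hZe : S.rho * S.x t / ε₁ * (p * ε₀ / (S.rho * S.x t)) = p * (ε₀ / ε₁) := by
    field_simp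
  have he0 : 0 ≤ ε₀ / ε₁ := by positivity
  constructor
  · have h := mm_up hτ hτ' ha1 hb2
    rw [hy', y1_eq]
    calc S.rho * S.x t / ε₁ / p * Real.exp r * mm (θ (t - S.l p)) (θ (t - S.l p + 2 ^ k))
        ≤ S.rho * S.x t / ε₁ / p * Real.exp r * (p * mm (θ t) (θ (t + 2 ^ k)) +
          2 * (p * ε₀ / (S.rho * S.x t))) := mul_le_mul_of_nonneg_left h (by positivity)
      _ = Real.exp r * (S.rho * S.x t / ε₁ * mm (θ t) (θ (t + 2 ^ k)) +
          2 * (S.rho * S.x t / ε₁ * (p * ε₀ / (S.rho * S.x t))) / p) := by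
          field_simp
      _ = Real.exp r * (S.rho * S.x t / ε₁ * mm (θ t) (θ (t + 2 ^ k)) + 2 * (ε₀ / ε₁)) := by
          rw [hZe]
          field_simp
      _ ≤ _ := by
          apply mul_le_mul_of_nonneg_right hE1
          have := mm_nonneg (θ t) (θ (t + 2 ^ k))
          positivity
  · obtain ⟨s, hs, h⟩ := mm_down hτ hτ' ha1 hb2
    refine ⟨s, hs, ?_⟩
    have hb : Real.exp r * Real.exp (-r) = 1 := by rw [← Real.exp_add]; simp
    have hy0 : 0 ≤ y1 S ε₁ θ k (t - S.l p) := by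
      rw [hy']; positivity
    calc S.rho * S.x t / ε₁ * nd (p * (θ (t + 2 ^ k) - s * θ t))
        ≤ S.rho * S.x t / ε₁ * (mm (θ (t - S.l p)) (θ (t - S.l p + 2 ^ k)) +
          2 * (p * ε₀ / (S.rho * S.x t))) := mul_le_mul_of_nonneg_left h hZ.le
      _ = p * (Real.exp (-r) * y1 S ε₁ θ k (t - S.l p)) +
          2 * (S.rho * S.x t / ε₁ * (p * ε₀ / (S.rho * S.x t))) := by
          rw [hy']
          have : p * (Real.exp (-r) * (S.rho * S.x t / ε₁ / p * Real.exp r *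
              mm (θ (t - S.l p)) (θ (t - S.l p + 2 ^ k)))) =
              (Real.exp r * Real.exp (-r)) * (p / p) * (S.rho * S.x t / ε₁ *
              mm (θ (t - S.l p)) (θ (t - S.l p + 2 ^ k))) := by ring
          rw [this, hb, div_self hp0.ne']
          ring
      _ = p * (Real.exp (-r) * y1 S ε₁ θ k (t - S.l p) + 2 * (ε₀ / ε₁)) := by
          rw [hZe]; ring
      _ ≤ _ := by
          apply mul_le_mul_of_nonneg_left _ hp0.le
          have := mul_le_mul_of_nonneg_right hE2 hy0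
          linarith

/-- the bad edges -/
def Bad (S : Par) (ε₀ ε₁ ε' : ℝ) (θ φ : ℤ → ℝ) (k p : ℕ) (t : ℤ) : Prop :=
  EdR S ε₀ θ φ p t ∧ EdR S ε₀ θ φ p (t + 2 ^ k) ∧
    ε' < |F1 S ε₁ θ k (t - S.l p) - F1 S ε₁ θ k t|

lemma bad_edge {S : Par} {ε₀ ε₁ ε' : ℝ} {θ φ : ℤ → ℝ} {p k : ℕ} {t : ℤ} (hh : 0 < S.h)
    (hh1 : S.h ≤ ε' / 40) (hr : 0 < S.rho) (hp : 1 ≤ p) (h1 : 0 < ε₁) (h0 : 0 ≤ ε₀)
    (hε' : ε' ≤ 1) (he : ε₀ ≤ ε' * ε₁ / 100)
    (hl : |S.h * S.l p - Real.log p| ≤ S.h / 2) (hb : Bad S ε₀ ε₁ ε' θ φ k p t) :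
    ∃ s : ℝ, (s = 1 ∨ s = -1) ∧
      nd (p * (θ (t + 2 ^ k) - s * θ t)) ≤ p * (17 / (S.rho * S.x t / ε₁)) ∧
      nd (p * (θ (t + 2 ^ k) - s * θ t)) ≠ p * nd (θ (t + 2 ^ k) - s * θ t) := by
  obtain ⟨ha, hb, hc⟩ := hb
  have hx : 0 < S.x t := Par.x_pos t
  have hp0 : (0 : ℝ) < p := by exact_mod_cast hp
  have hZ : 0 < S.rho * S.x t / ε₁ := by positivity
  have he1 : ε₀ / ε₁ ≤ ε' / 100 := by
    rw [div_le_iff₀ h1]; linarith
  have he0 : 0 ≤ ε₀ / ε₁ := by positivity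
  obtain ⟨i1, s, hs, i2⟩ := one_edge (k := k) hh (by linarith) hr hp h1 h0 hl ha hb
  obtain ⟨q, hq⟩ : ∃ q, q = ε₀ / ε₁ := ⟨_, rfl⟩
  rw [← hq] at i1 i2 he1 he0
  have hy0 : 0 ≤ y1 S ε₁ θ k t := by
    rw [y1_eq]; have := mm_nonneg (θ t) (θ (t + 2 ^ k)); positivity
  have hmy : ∀ s : ℝ, (s = 1 ∨ s = -1) → y1 S ε₁ θ k t ≤
      S.rho * S.x t / ε₁ * nd (θ (t + 2 ^ k) - s * θ t) := by
    intro s hs
    rw [y1_eq]
    exact mul_le_mul_of_nonneg_left (mm_le hs) hZ.le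
  have hm2 := hmy s hs
  unfold F1 at hc
  obtain ⟨y, hy⟩ : ∃ y, y = y1 S ε₁ θ k t := ⟨_, rfl⟩
  obtain ⟨y', hy'⟩ : ∃ y', y' = y1 S ε₁ θ k (t - S.l p) := ⟨_, rfl⟩
  have hy0' : 0 ≤ y' := by
    rw [hy', y1_eq]
    have := mm_nonneg (θ (t - S.l p)) (θ (t - S.l p + 2 ^ k))
    have := Par.x_pos (S := S) (t - S.l p)
    positivity
  rw [← hy, ← hy'] at hc
  rw [← hy, ← hy'] at i1
  rw [← hy'] at i2
  rw [← hy] at hm2 hy0
  have hup : min y' 16 ≤ min y 16 + ε' := by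
    rcases le_total y 16 with h | h
    · rw [min_eq_left h]
      refine (min_le_left _ _).trans (i1.trans ?_)
      nlinarith
    · rw [min_eq_right h]
      exact (min_le_right _ _).trans (by linarith)
  have hlt : min y' 16 + ε' < min y 16 := by
    rcases lt_abs.1 hc with h | h
    · linarith
    · linarith
  have hy16 : y' < 16 := by
    by_contra hcc
    push Not at hcc
    rw [min_eq_right hcc] at hlt
    have := min_le_right y 16
    linarith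
  rw [min_eq_left hy16.le] at hlt
  have hlt2 : y' + ε' < y := hlt.trans_le (min_le_left _ _)
  refine ⟨s, hs, ?_, ?_⟩
  · rw [mul_div_assoc', le_div_iff₀ hZ, mul_comm]
    refine i2.trans (mul_le_mul_of_nonneg_left ?_ hp0.le)
    nlinarith
  · intro hc2
    rw [hc2] at i2
    have i3 : S.rho * S.x t / ε₁ * nd (θ (t + 2 ^ k) - s * θ t) ≤ (1 + S.h) * y' + 2 * q := by
      have : p * (S.rho * S.x t / ε₁ * nd (θ (t + 2 ^ k) - s * θ t)) ≤
          p * ((1 + S.h) * y' + 2 * q) := by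
        linarith
      exact le_of_mul_le_mul_left this hp0
    nlinarith

theorem pf_E1P (hTWO : T_TWO) (hSIZ : T_SIZ) (hWTS : T_WTS) : T_E1P := by
  intro K ε₁ ε' hK h1 h1' h2 h2'
  obtain ⟨X₁, hX₁⟩ := hSIZ
  obtain ⟨X₂, hX₂⟩ := hWTS.2.1 (2 * K) (by omega)
  obtain ⟨X₃, hX₃⟩ := LL_large (16 / ε')
  refine ⟨max (max X₁ X₂) (max X₃ (40 / ε')), ?_⟩
  intro S ε₀ η θ φ hS hSK hX h0 h0' hR k hk
  have hXa : X₁ ≤ S.X := (le_max_left _ _).trans ((le_max_left _ _).trans hX)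
  have hXb : X₂ ≤ S.X := (le_max_right _ _).trans ((le_max_left _ _).trans hX)
  have hXc : X₃ ≤ S.X := (le_max_left _ _).trans ((le_max_right _ _).trans hX)
  have hXd : 40 / ε' ≤ S.X := (le_max_right _ _).trans ((le_max_right _ _).trans hX)
  obtain ⟨s1, s2, s3, s4, s5, s6, s7, s8, s9, s10, s11, s12, s13⟩ := hX₁ S hS hXa
  have hW := hX₂ S.X hXb
  have hL : 16 / ε' ≤ S.L := hX₃ S.X hXc
  have hP : 16 / ε' ≤ S.P := by
    have : S.L + 1 ≤ S.P := Real.add_one_le_exp _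
    linarith
  have hP0 := Par.P_pos (S := S)
  have hh := hS.hh
  have hX0 : 0 < S.X := lt_of_lt_of_le one_pos hS.hX
  have hhX : S.h ≤ ε' / 40 := by
    have a : S.h * S.X ≤ 1 := by
      refine le_trans (mul_le_mul_of_nonneg_left ?_ hh.le) hS.hX5
      exact le_self_pow₀ hS.hX (by norm_num)
    have b : 40 ≤ S.X * ε' := by rwa [div_le_iff₀ h2] at hXd
    by_contra hc
    push Not at hc
    have : ε' / 40 * S.X < S.h * S.X := mul_lt_mul_of_pos_right hc hX0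
    linarith
  -- the prime numbers of Q
  have hPK : (0 : ℝ) ≤ S.P ^ (2 * S.K) := by positivity
  have hQ : ∀ p ∈ S.Q, S.P < p ∧ (p : ℝ) ≤ S.P ^ (2 * S.K) ∧ p.Prime := by
    intro p hp
    exact (mem_Pr hPK).1 hp
  have hQ1 : ∀ p ∈ S.Q, 1 ≤ p := fun p hp => (hQ p hp).2.2.one_le
  -- the edges of the first kind
  classical
  have hB : ∀ t ∈ S.I, ((S.Q.filter fun p => Bad S ε₀ ε₁ ε' θ φ k p t).card : ℝ) ≤ 2 := by
    intro t ht
    have hbad : ∀ p, p ∈ (S.Q.filter fun p => Bad S ε₀ ε₁ ε' θ φ k p t) →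
        ∃ s : ℝ, (s = 1 ∨ s = -1) ∧
        nd (p * (θ (t + 2 ^ k) - s * θ t)) ≤ p * (17 / (S.rho * S.x t / ε₁)) ∧
        nd (p * (θ (t + 2 ^ k) - s * θ t)) ≠ p * nd (θ (t + 2 ^ k) - s * θ t) := by
      intro p hp
      rw [mem_filter] at hp
      exact bad_edge hh hhX hS.hr0 (hQ1 p hp.1) h1 h0 h2' h0' (s10 p (hQ1 p hp.1)) hp.2
    choose! f hf using hbad
    have hinj : Set.InjOn f (S.Q.filter fun p => Bad S ε₀ ε₁ ε' θ φ k p t : Finset ℕ) := by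
      intro p hp q hq hpq
      by_contra hne
      rw [mem_coe] at hp hq
      obtain ⟨a1, a2, a3⟩ := hf p hp
      obtain ⟨b1, b2, b3⟩ := hf q hq
      rw [← hpq] at b2 b3
      obtain ⟨p1, p2, p3⟩ := hQ p (mem_filter.1 hp).1
      obtain ⟨q1, q2, q3⟩ := hQ q (mem_filter.1 hq).1
      have hx : 0 < S.x t := Par.x_pos t
      have hx2 := (s9 t ht).1
      have hrx : 0 < S.rho * S.x t := mul_pos hS.hr0 hx
      refine a3 (hTWO p q _ _ p3 q3 hne a2 b2 ?_).2.1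
      have e1 : 2 * (p : ℝ) * q * (17 / (S.rho * S.x t / ε₁)) =
          34 * (p * q) * ε₁ / (S.rho * S.x t) := by
        field_simp
        ring
      rw [e1, div_lt_one hrx]
      refine lt_of_lt_of_le ?_ hx2
      have e2 : S.P ^ (100 * S.K) = S.P ^ (2 * S.K) * S.P ^ (2 * S.K) * S.P ^ (96 * S.K) := by
        rw [← pow_add, ← pow_add]
        congr 1
        omega
      have e3 : 100 ≤ S.P ^ (96 * S.K) := by
        refine s2.trans (le_self_pow₀ (by linarith) ?_)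
        have := hS.hK
        omega
      have e4 : (p : ℝ) * q ≤ S.P ^ (2 * S.K) * S.P ^ (2 * S.K) :=
        mul_le_mul p2 q2 (Nat.cast_nonneg _) hPK
      have e5 : 0 < S.P ^ (2 * S.K) * S.P ^ (2 * S.K) := by positivity
      rw [e2]
      calc 34 * (p * q : ℝ) * ε₁ ≤ 34 * (p * q : ℝ) * 1 :=
            mul_le_mul_of_nonneg_left h1' (by positivity)
        _ ≤ 34 * (S.P ^ (2 * S.K) * S.P ^ (2 * S.K)) := by linarith
        _ < S.P ^ (2 * S.K) * S.P ^ (2 * S.K) * 100 := by linarith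
        _ ≤ _ := mul_le_mul_of_nonneg_left e3 e5.le
    have hmaps : ∀ p ∈ (S.Q.filter fun p => Bad S ε₀ ε₁ ε' θ φ k p t),
        f p ∈ ({1, -1} : Finset ℝ) := by
      intro p hp
      rw [mem_insert, mem_singleton]
      exact (hf p hp).1
    have hc := card_le_card_of_injOn f hmaps hinj
    have hc2 : ({1, -1} : Finset ℝ).card ≤ 2 := card_le_two
    exact_mod_cast hc.trans hc2
  have hcnt : ∀ E : ℤ → Prop, S.cnt E = ∑ t ∈ S.I, if E t then (1 : ℝ) else 0 := by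
    intro E
    rw [Finset.sum_boole]
    unfold Par.cnt
    have : S.fl E = S.I.filter E := by
      ext t; rw [Par.mem_fl, mem_filter]
    rw [this]
  have hS1 : ∑ p ∈ S.Q, 1 / (p : ℝ) * S.cnt (fun t => Bad S ε₀ ε₁ ε' θ φ k p t) ≤
      2 / S.P * S.N := by
    calc ∑ p ∈ S.Q, 1 / (p : ℝ) * S.cnt (fun t => Bad S ε₀ ε₁ ε' θ φ k p t)
        = ∑ t ∈ S.I, ∑ p ∈ S.Q, (1 / (p : ℝ)) *
          (if Bad S ε₀ ε₁ ε' θ φ k p t then (1 : ℝ) else 0) := by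
          rw [sum_comm]
          refine sum_congr rfl fun p _ => ?_
          rw [hcnt, mul_sum]
      _ ≤ ∑ t ∈ S.I, 2 / S.P := by
          refine sum_le_sum fun t ht => ?_
          calc ∑ p ∈ S.Q, (1 / (p : ℝ)) * (if Bad S ε₀ ε₁ ε' θ φ k p t then (1 : ℝ) else 0)
              = ∑ p ∈ S.Q.filter (fun p => Bad S ε₀ ε₁ ε' θ φ k p t), 1 / (p : ℝ) := by
                rw [sum_filter]
                refine sum_congr rfl fun p _ => ?_
                split_ifs <;> simp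
            _ ≤ ∑ p ∈ S.Q.filter (fun p => Bad S ε₀ ε₁ ε' θ φ k p t), 1 / S.P := by
                refine sum_le_sum fun p hp => ?_
                exact one_div_le_one_div_of_le hP0 (hQ p (mem_filter.1 hp).1).1.le
            _ ≤ 2 / S.P := by
                rw [sum_const, nsmul_eq_mul, mul_one_div]
                exact div_le_div_of_nonneg_right (hB t ht) hP0.le
      _ = 2 / S.P * S.N := by
          rw [sum_const, nsmul_eq_mul, s13, mul_comm]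
  have hS2 := hR.edg
  have hone : ∀ p : ℕ, S.cnt (fun t => t - S.l p ∈ S.I ∧
      ε' < |F1 S ε₁ θ k (t - S.l p) - F1 S ε₁ θ k t|) ≤
      S.cnt (fun t => Bad S ε₀ ε₁ ε' θ φ k p t) +
      (2 * S.cnt (fun t => t - S.l p ∈ S.I ∧ ¬ EdR S ε₀ θ φ p t) + 2 * 2 ^ k) := by
    intro p
    have c1 := Par.cnt_mono (S := S) (E := fun t => t - S.l p ∈ S.I ∧
      ε' < |F1 S ε₁ θ k (t - S.l p) - F1 S ε₁ θ k t|)
      (F := fun t => Bad S ε₀ ε₁ ε' θ φ k p t ∨ ((t - S.l p ∈ S.I ∧ ¬ EdR S ε₀ θ φ p t) ∨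
        ((t + 2 ^ k ∈ S.I ∧ (t + 2 ^ k - S.l p ∈ S.I ∧ ¬ EdR S ε₀ θ φ p (t + 2 ^ k))) ∨
        (t + 2 ^ k ∉ S.I ∨ (t - S.l p ∈ S.I ∧ t - S.l p + 2 ^ k ∉ S.I))))) (by
        intro t _ ht
        by_cases a1 : EdR S ε₀ θ φ p t
        · by_cases a2 : EdR S ε₀ θ φ p (t + 2 ^ k)
          · exact Or.inl ⟨a1, a2, ht.2⟩
          · by_cases a3 : t + 2 ^ k ∈ S.I
            · by_cases a4 : t - S.l p + 2 ^ k ∈ S.I
              · refine Or.inr (Or.inr (Or.inl ⟨a3, ?_, a2⟩))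
                rwa [show t + 2 ^ k - S.l p = t - S.l p + 2 ^ k by ring]
              · exact Or.inr (Or.inr (Or.inr (Or.inr ⟨ht.1, a4⟩)))
            · exact Or.inr (Or.inr (Or.inr (Or.inl a3)))
        · exact Or.inr (Or.inl ⟨ht.1, a1⟩))
    have c2 := c1.trans (Par.cnt_or _ _)
    have c3 := Par.cnt_or (S := S) (fun t => t - S.l p ∈ S.I ∧ ¬ EdR S ε₀ θ φ p t)
      (fun t => (t + 2 ^ k ∈ S.I ∧ (t + 2 ^ k - S.l p ∈ S.I ∧ ¬ EdR S ε₀ θ φ p (t + 2 ^ k))) ∨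
        (t + 2 ^ k ∉ S.I ∨ (t - S.l p ∈ S.I ∧ t - S.l p + 2 ^ k ∉ S.I)))
    have c4 := Par.cnt_or (S := S)
      (fun t => (t + 2 ^ k ∈ S.I ∧ (t + 2 ^ k - S.l p ∈ S.I ∧ ¬ EdR S ε₀ θ φ p (t + 2 ^ k))))
      (fun t => (t + 2 ^ k ∉ S.I ∨ (t - S.l p ∈ S.I ∧ t - S.l p + 2 ^ k ∉ S.I)))
    have c5 := Par.cnt_or (S := S) (fun t => t + 2 ^ k ∉ S.I)
      (fun t => t - S.l p ∈ S.I ∧ t - S.l p + 2 ^ k ∉ S.I)
    have c6 := Par.cnt_shift (S := S) (fun t => t - S.l p ∈ S.I ∧ ¬ EdR S ε₀ θ φ p t) (2 ^ k)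
    have c7 := Par.cnt_out (S := S) (2 ^ k)
    have c8 := Par.cnt_shift (S := S) (fun t => t + 2 ^ k ∉ S.I) (-(S.l p))
    have e7 : |(((2 ^ k : ℤ)) : ℝ)| = 2 ^ k := by
      push_cast
      exact abs_of_pos (by positivity)
    rw [e7] at c7
    have c9 : S.cnt (fun t => t - S.l p ∈ S.I ∧ t - S.l p + 2 ^ k ∉ S.I) ≤ 2 ^ k := by
      refine le_trans (Par.cnt_mono (F := fun t => t + -(S.l p) ∈ S.I ∧
        t + -(S.l p) + 2 ^ k ∉ S.I) ?_) (c8.trans c7)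
      intro t _ ht
      rwa [sub_eq_add_neg] at ht
    linarith
  have hfin : ∑ p ∈ S.Q, 1 / (p : ℝ) * S.cnt (fun t => t - S.l p ∈ S.I ∧
      ε' < |F1 S ε₁ θ k (t - S.l p) - F1 S ε₁ θ k t|) ≤
      2 / S.P * S.N + 2 * (ε' / 4 * S.N) + 2 * 2 ^ k * (2 * S.K) := by
    calc ∑ p ∈ S.Q, 1 / (p : ℝ) * S.cnt (fun t => t - S.l p ∈ S.I ∧
        ε' < |F1 S ε₁ θ k (t - S.l p) - F1 S ε₁ θ k t|)
        ≤ ∑ p ∈ S.Q, (1 / (p : ℝ) * S.cnt (fun t => Bad S ε₀ ε₁ ε' θ φ k p t) +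
          (2 * (1 / (p : ℝ) * S.cnt (fun t => t - S.l p ∈ S.I ∧ ¬ EdR S ε₀ θ φ p t)) +
            2 * 2 ^ k * (1 / (p : ℝ)))) := by
          refine sum_le_sum fun p _ => ?_
          have hp0 : 0 ≤ 1 / (p : ℝ) := by positivity
          have := mul_le_mul_of_nonneg_left (hone p) hp0
          linarith
      _ = ∑ p ∈ S.Q, 1 / (p : ℝ) * S.cnt (fun t => Bad S ε₀ ε₁ ε' θ φ k p t) +
          (2 * ∑ p ∈ S.Q, 1 / (p : ℝ) * S.cnt (fun t => t - S.l p ∈ S.I ∧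
            ¬ EdR S ε₀ θ φ p t) + 2 * 2 ^ k * ∑ p ∈ S.Q, 1 / (p : ℝ)) := by
          rw [sum_add_distrib, sum_add_distrib, mul_sum, mul_sum]
      _ ≤ _ := by
          have hWW : ∑ p ∈ S.Q, 1 / (p : ℝ) ≤ 2 * S.K := by
            have e : ((2 * K : ℕ) : ℝ) = 2 * (S.K : ℝ) := by rw [hSK]; push_cast; ring
            rw [← e]
            unfold Par.Q Par.P
            rw [hSK]
            exact hW
          have := mul_le_mul_of_nonneg_left hWW (show (0 : ℝ) ≤ 2 * 2 ^ k by positivity)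
          linarith
  refine hfin.trans ?_
  have hK1 : (1 : ℝ) ≤ S.K := by exact_mod_cast hS.hK
  have hL0 : 0 < S.L := lt_of_lt_of_le (by positivity) hL
  have f1 : S.h * 2 ^ k ≤ 1 := by
    have a : (2 : ℝ) ^ k ≤ 2 ^ S.J := pow_le_pow_right₀ (by norm_num) hk
    have b := hS.hJ
    have c : Real.log 2 ≤ 1 := by linarith [Real.log_two_lt_d9]
    nlinarith
  have f2 : 2 ^ k * (12 * S.K * S.L) ≤ S.N := by
    calc 2 ^ k * (12 * S.K * S.L) ≤ 2 ^ k * (S.N * S.h) :=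
          mul_le_mul_of_nonneg_left hS.hI1 (by positivity)
      _ = S.N * (S.h * 2 ^ k) := by ring
      _ ≤ S.N * 1 := mul_le_mul_of_nonneg_left f1 s12.le
      _ = S.N := mul_one _
  have f3 : 16 ≤ S.L * ε' := by rwa [div_le_iff₀ h2] at hL
  have f4 : 2 * 2 ^ k * (2 * S.K) ≤ ε' / 8 * S.N := by
    have g1 : 2 ^ k * (12 * S.K * S.L) * ε' ≤ S.N * ε' := mul_le_mul_of_nonneg_right f2 h2.le
    have g2 : 2 ^ k * (12 * S.K) * 16 ≤ 2 ^ k * (12 * S.K) * (S.L * ε') :=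
      mul_le_mul_of_nonneg_left f3 (by positivity)
    have g3 : (0 : ℝ) ≤ 2 ^ k * S.K := by positivity
    nlinarith
  have f5 : 2 / S.P ≤ ε' / 8 := by
    rw [div_le_iff₀ hP0]
    have : 16 ≤ S.P * ε' := by rwa [div_le_iff₀ h2] at hP
    linarith
  have f6 := mul_le_mul_of_nonneg_right f5 s12.le
  have f7 : 0 ≤ ε' * S.N := by positivity
  linarith

end Pool.Agent.H73.N4D
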